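import Pool.Agent.H369.RE.Stm

/-!
# RE6, RE7: the shift of power series, and the extension to the base change
-/

set_option autoImplicit false

namespace Pool.Agent.H726.RE

open TensorProduct Pool.Agent.TH549.CK Pool.Agent.H369.TH Pool.Agent.H369.CFG Pool.Agent.H369.SM
open Pool.Agent.H369.PL Pool.Agent.H369.RE

/-! ### the shift -/

section shift

variable {k : Type} [CommRing k]

/-- the coefficients of the shifted series -/
lemma coeff_shf (ζ f : PowerSeries k) (b A : ℕ) :
    PowerSeries.coeff A (PowerSeries.coeff b (shf ζ f)) =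
      (((A + b).choose b : ℕ) : PowerSeries k) * PowerSeries.C (PowerSeries.coeff (A + b) f) *
        ζ ^ A := by
  unfold shf
  rw [PowerSeries.coeff_mk, PowerSeries.coeff_mk]

/-- double sums over antidiagonals and Vandermonde's identity -/
lemma vander {M : Type} [CommRing M] (F : ℕ → ℕ → M) (A b : ℕ) :
    ∑ x ∈ Finset.HasAntidiagonal.antidiagonal b, ∑ y ∈ Finset.HasAntidiagonal.antidiagonal A,
      (((y.1 + x.1).choose x.1 : ℕ) : M) * (((y.2 + x.2).choose x.2 : ℕ) : M) *
        F (y.1 + x.1) (y.2 + x.2) =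
      (((A + b).choose b : ℕ) : M) * ∑ p ∈ Finset.HasAntidiagonal.antidiagonal (A + b), F p.1 p.2 := by
  have h1 : (((A + b).choose b : ℕ) : M) * ∑ p ∈ Finset.HasAntidiagonal.antidiagonal (A + b), F p.1 p.2 =
      ∑ p ∈ Finset.HasAntidiagonal.antidiagonal (A + b), ∑ x ∈ Finset.HasAntidiagonal.antidiagonal b,
        ((p.1.choose x.1 : ℕ) : M) * ((p.2.choose x.2 : ℕ) : M) * F p.1 p.2 := by
    rw [Finset.mul_sum]
    refine Finset.sum_congr rfl fun p hp => ?_
    rw [Finset.HasAntidiagonal.mem_antidiagonal] at hp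
    rw [← hp, Nat.add_choose_eq, ← Finset.sum_mul]
    push_cast
    rfl
  have h1' : ∑ p ∈ Finset.HasAntidiagonal.antidiagonal (A + b),
      ∑ x ∈ Finset.HasAntidiagonal.antidiagonal b,
        ((p.1.choose x.1 : ℕ) : M) * ((p.2.choose x.2 : ℕ) : M) * F p.1 p.2 =
      ∑ x ∈ Finset.HasAntidiagonal.antidiagonal b,
        ∑ p ∈ Finset.HasAntidiagonal.antidiagonal (A + b),
        ((p.1.choose x.1 : ℕ) : M) * ((p.2.choose x.2 : ℕ) : M) * F p.1 p.2 := Finset.sum_comm
  rw [h1, h1']
  refine Finset.sum_congr rfl fun x hx => ?_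
  rw [Finset.HasAntidiagonal.mem_antidiagonal] at hx
  refine Finset.sum_of_injOn (fun y : ℕ × ℕ => (y.1 + x.1, y.2 + x.2)) ?_ ?_ ?_ ?_
  · intro y _ z _ hyz
    have h2 := congrArg Prod.fst hyz
    have h3 := congrArg Prod.snd hyz
    simp only at h2 h3
    exact Prod.ext (by omega) (by omega)
  · intro y hy
    rw [Finset.mem_coe, Finset.HasAntidiagonal.mem_antidiagonal] at hy ⊢
    simp only
    omega
  · intro p hp hnot
    rw [Finset.HasAntidiagonal.mem_antidiagonal] at hp
    by_cases h2 : x.1 ≤ p.1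
    · by_cases h3 : x.2 ≤ p.2
      · exfalso
        apply hnot
        refine ⟨(p.1 - x.1, p.2 - x.2), ?_, ?_⟩
        · rw [Finset.mem_coe, Finset.HasAntidiagonal.mem_antidiagonal]
          simp only
          omega
        · exact Prod.ext (Nat.sub_add_cancel h2) (Nat.sub_add_cancel h3)
      · rw [Nat.choose_eq_zero_of_lt (not_le.1 h3), Nat.cast_zero, mul_zero, zero_mul]
    · rw [Nat.choose_eq_zero_of_lt (not_le.1 h2), Nat.cast_zero, zero_mul, zero_mul]
  · intro y _
    rfl

lemma shf_one (ζ : PowerSeries k) : shf ζ 1 = 1 := by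
  refine PowerSeries.ext fun b => PowerSeries.ext fun A => ?_
  rw [coeff_shf]
  by_cases h : A = 0 ∧ b = 0
  · obtain ⟨rfl, rfl⟩ := h
    simp
  · have h1 : (PowerSeries.coeff (A + b)) (1 : PowerSeries k) = 0 := by
      rw [PowerSeries.coeff_one, if_neg (by omega)]
    have h2 : PowerSeries.coeff A (PowerSeries.coeff b (1 : PowerSeries (BB k))) = 0 := by
      rw [PowerSeries.coeff_one]
      by_cases hb : b = 0
      · rw [if_pos hb, PowerSeries.coeff_one, if_neg (fun hA => h ⟨hA, hb⟩)]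
      · rw [if_neg hb, map_zero]
    rw [h1, h2, map_zero, mul_zero, zero_mul]

lemma shf_zero (ζ : PowerSeries k) : shf ζ 0 = 0 := by
  refine PowerSeries.ext fun b => PowerSeries.ext fun A => ?_
  rw [coeff_shf, map_zero, map_zero, mul_zero, zero_mul, map_zero, map_zero]

lemma shf_add (ζ f g : PowerSeries k) : shf ζ (f + g) = shf ζ f + shf ζ g := by
  refine PowerSeries.ext fun b => PowerSeries.ext fun A => ?_
  rw [coeff_shf, map_add, map_add, map_add, map_add, coeff_shf, coeff_shf]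
  ring

lemma shf_mul (ζ f g : PowerSeries k) : shf ζ (f * g) = shf ζ f * shf ζ g := by
  refine PowerSeries.ext fun b => PowerSeries.ext fun A => ?_
  rw [coeff_shf, PowerSeries.coeff_mul, PowerSeries.coeff_mul, map_sum, map_sum]
  have h1 : ∀ x ∈ Finset.HasAntidiagonal.antidiagonal b, PowerSeries.coeff A
      (PowerSeries.coeff x.1 (shf ζ f) * PowerSeries.coeff x.2 (shf ζ g)) =
      ∑ y ∈ Finset.HasAntidiagonal.antidiagonal A,
        ((((y.1 + x.1).choose x.1 : ℕ) : PowerSeries k) *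
          (((y.2 + x.2).choose x.2 : ℕ) : PowerSeries k) *
          (PowerSeries.C (PowerSeries.coeff (y.1 + x.1) f) *
            PowerSeries.C (PowerSeries.coeff (y.2 + x.2) g))) * ζ ^ A := by
    intro x _
    rw [PowerSeries.coeff_mul]
    refine Finset.sum_congr rfl fun y hy => ?_
    rw [Finset.HasAntidiagonal.mem_antidiagonal] at hy
    rw [coeff_shf, coeff_shf, ← hy, pow_add]
    ring
  rw [Finset.sum_congr rfl h1]
  have h2 : ∑ x ∈ Finset.HasAntidiagonal.antidiagonal b, ∑ y ∈ Finset.HasAntidiagonal.antidiagonal A,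
        ((((y.1 + x.1).choose x.1 : ℕ) : PowerSeries k) *
          (((y.2 + x.2).choose x.2 : ℕ) : PowerSeries k) *
          (PowerSeries.C (PowerSeries.coeff (y.1 + x.1) f) *
            PowerSeries.C (PowerSeries.coeff (y.2 + x.2) g))) * ζ ^ A =
      (∑ x ∈ Finset.HasAntidiagonal.antidiagonal b, ∑ y ∈ Finset.HasAntidiagonal.antidiagonal A,
        (((y.1 + x.1).choose x.1 : ℕ) : PowerSeries k) *
          (((y.2 + x.2).choose x.2 : ℕ) : PowerSeries k) *
          (PowerSeries.C (PowerSeries.coeff (y.1 + x.1) f) *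
            PowerSeries.C (PowerSeries.coeff (y.2 + x.2) g))) * ζ ^ A := by
    rw [Finset.sum_mul]
    refine Finset.sum_congr rfl fun x _ => ?_
    rw [Finset.sum_mul]
  rw [h2, vander (fun p q => PowerSeries.C (PowerSeries.coeff p f) *
    PowerSeries.C (PowerSeries.coeff q g)) A b]
  congr 2
  refine Finset.sum_congr rfl fun p _ => ?_
  rw [map_mul]

end shift

/-- RE6 -/
theorem sh : S_sh := by
  intro k _ ζ
  exact ⟨{ toFun := shf ζ
           map_one' := shf_one ζ
           map_mul' := shf_mul ζ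
           map_zero' := shf_zero ζ
           map_add' := shf_add ζ }, fun f => rfl⟩

/-! ### the extension -/

section extension

/-- ring homomorphisms on a tensor product -/
lemma lift_exists {k Ω R T : Type} [Field k] [Field Ω] [Algebra k Ω] [CommRing R] [Algebra k R]
    [CommRing T] (α : Ω →+* T) (β : R →+* T)
    (h : ∀ c, β (algebraMap k R c) = α (algebraMap k Ω c)) :
    ∃ L : Ω ⊗[k] R →+* T, ∀ ω r, L (ω ⊗ₜ[k] r) = α ω * β r := by
  let _ : Algebra k T := (α.comp (algebraMap k Ω)).toAlgebra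
  let α' : Ω →ₐ[k] T := { α with commutes' := fun c => rfl }
  let β' : R →ₐ[k] T := { β with commutes' := fun c => h c }
  exact ⟨(Algebra.TensorProduct.productMap α' β' : Ω ⊗[k] R →ₐ[k] T).toRingHom,
    fun ω r => Algebra.TensorProduct.productMap_apply_tmul α' β' ω r⟩

variable {k : Type} [Field k] (R : Subalgebra k (LaurentSeries k)) (Ω : Type) [Field Ω]
  [Algebra k Ω]

lemma up_comm (c : k) :
    up R Ω (algebraMap k R c) = algebraMap Ω (ext R Ω) (algebraMap k Ω c) := by
  apply Subtype.ext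
  change P10.mapL k Ω (algebraMap k (LaurentSeries k) c) =
    algebraMap Ω (LaurentSeries Ω) (algebraMap k Ω c)
  rw [LaurentSeries.algebraMap_apply, LaurentSeries.algebraMap_apply]
  exact HahnSeries.map_C c (algebraMap k Ω)

/-- the coefficients of elements of the extension -/
def cf (l : ℤ) : ext R Ω →+ Ω where
  toFun x := (x : LaurentSeries Ω).coeff l
  map_zero' := rfl
  map_add' _ _ := rfl

lemma cf_mul (l : ℤ) (ω : Ω) (f : R) :
    cf R Ω l (algebraMap Ω (ext R Ω) ω * up R Ω f) =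
      ω * algebraMap k Ω ((f : LaurentSeries k).coeff l) := by
  change (algebraMap Ω (LaurentSeries Ω) ω * P10.mapL k Ω (f : LaurentSeries k)).coeff l = _
  rw [LaurentSeries.algebraMap_apply, HahnSeries.C_mul_eq_smul, HahnSeries.coeff_smul, smul_eq_mul,
    P10.coeff_mapL]

lemma LT_inj (LT : Ω ⊗[k] R →+* ext R Ω)
    (hLT : ∀ ω r, LT (ω ⊗ₜ[k] r) = algebraMap Ω (ext R Ω) ω * up R Ω r) :
    Function.Injective LT := by
  rw [injective_iff_map_eq_zero]
  intro z hz
  let b := Module.Basis.ofVectorSpace k Ω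
  obtain ⟨c, hc⟩ := TensorProduct.eq_repr_basis_left b z
  have h1 : ∀ l : ℤ, ∑ i ∈ c.support, ((c i : R) : LaurentSeries k).coeff l • b i = 0 := by
    intro l
    have h2 : cf R Ω l (LT z) = 0 := by rw [hz, map_zero]
    rw [← hc, Finsupp.sum, map_sum, map_sum] at h2
    rw [← h2]
    refine Finset.sum_congr rfl fun i _ => ?_
    rw [hLT, cf_mul, Algebra.smul_def, mul_comm]
  have h3 : ∀ i, c i = 0 := by
    intro i
    by_cases hi : i ∈ c.support
    · apply Subtype.ext
      ext l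
      exact linearIndependent_iff'.1 b.linearIndependent c.support
        (fun i => ((c i : R) : LaurentSeries k).coeff l) (h1 l) i hi
    · exact Finsupp.notMem_support_iff.1 hi
  have h4 : c = 0 := Finsupp.ext h3
  rw [← hc, h4, Finsupp.sum_zero_index]

lemma LT_surj (LT : Ω ⊗[k] R →+* ext R Ω)
    (hLT : ∀ ω r, LT (ω ⊗ₜ[k] r) = algebraMap Ω (ext R Ω) ω * up R Ω r) :
    Function.Surjective LT := by
  have key : ∀ y ∈ ext R Ω, ∃ z, ((LT z : ext R Ω) : LaurentSeries Ω) = y := by
    intro y hy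
    unfold TH549.CK.ext at hy
    refine Algebra.adjoin_induction (p := fun y _ => ∃ z, ((LT z : ext R Ω) : LaurentSeries Ω) = y)
      ?_ ?_ ?_ ?_ hy
    · rintro y ⟨f, hf, hk⟩
      refine ⟨1 ⊗ₜ[k] (⟨f, hf⟩ : R), ?_⟩
      rw [hLT, map_one, one_mul]
      ext l
      rw [coeff_up, hk l]
    · intro r
      refine ⟨r ⊗ₜ[k] (1 : R), ?_⟩
      rw [hLT, map_one, mul_one]
      rfl
    · rintro x y _ _ ⟨z, rfl⟩ ⟨z', rfl⟩
      exact ⟨z + z', by rw [map_add]; rfl⟩
    · rintro x y _ _ ⟨z, rfl⟩ ⟨z', rfl⟩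
      exact ⟨z * z', by rw [map_mul]; rfl⟩
  intro x
  obtain ⟨z, hz⟩ := key x x.2
  exact ⟨z, Subtype.ext hz⟩

end extension

/-- RE7 -/
theorem extE : S_extE := by
  intro k _ R Ω _ _ e he
  obtain ⟨LT, hLT⟩ := lift_exists (k := k) (Ω := Ω) (R := R) (T := ext R Ω)
    (algebraMap Ω (ext R Ω)) (up R Ω) (up_comm R Ω)
  obtain ⟨LP, hLP⟩ := lift_exists (k := k) (Ω := Ω) (R := R) (T := PowerSeries Ω)
    PowerSeries.C e he
  let E := RingEquiv.ofBijective LT ⟨LT_inj R Ω LT hLT, LT_surj R Ω LT hLT⟩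
  have hE : ∀ z, E.symm (LT z) = z := fun z => E.symm_apply_apply z
  refine ⟨LP.comp (E.symm : ext R Ω →+* Ω ⊗[k] R), ?_, ?_⟩
  · intro c
    have h1 : algebraMap Ω (ext R Ω) c = LT (c ⊗ₜ[k] (1 : R)) := by
      rw [hLT, map_one, mul_one]
    rw [h1]
    change LP (E.symm (LT (c ⊗ₜ[k] (1 : R)))) = _
    rw [hE, hLP, map_one, mul_one]
  · intro f
    have h1 : up R Ω f = LT ((1 : Ω) ⊗ₜ[k] f) := by
      rw [hLT, map_one, one_mul]
    rw [h1]
    change LP (E.symm (LT ((1 : Ω) ⊗ₜ[k] f))) = _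
    rw [hE, hLP, map_one, one_mul]

end Pool.Agent.H726.RE
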